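import Mathlib
import Pool.Agent.H15.Lin.Int1
import Pool.Agent.H15.Lin.Poly689

set_option autoImplicit false

/-!
Size of `(x-6)^6 (x-8)^3 (x-9)^2 / x^5` on `[6, 9]`.
-/

namespace Pool.Agent.H15.Lin

open Polynomial Finset MeasureTheory intervalIntegral

theorem piece1 {u v x : ℝ} (hu : 6 ≤ u) (hv : v ≤ 8) (h1 : u ≤ x) (h2 : x ≤ v)
    (h : 3200 * ((v - 6) ^ 6 * (8 - u) ^ 3 * (9 - u) ^ 2) ≤ u ^ 5) :
    3200 * ((x - 6) ^ 6 * (8 - x) ^ 3 * (9 - x) ^ 2) ≤ x ^ 5 := by
  have a1 : (x - 6) ^ 6 ≤ (v - 6) ^ 6 := pow_le_pow_left₀ (by linarith) (by linarith) 6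
  have a2 : (8 - x) ^ 3 ≤ (8 - u) ^ 3 := pow_le_pow_left₀ (by linarith) (by linarith) 3
  have a3 : (9 - x) ^ 2 ≤ (9 - u) ^ 2 := pow_le_pow_left₀ (by linarith) (by linarith) 2
  have a4 : u ^ 5 ≤ x ^ 5 := pow_le_pow_left₀ (by linarith) (by linarith) 5
  have b1 : 0 ≤ (x - 6) ^ 6 := by positivity
  have b2 : 0 ≤ (8 - x) ^ 3 := pow_nonneg (by linarith) 3
  have b3 : 0 ≤ (9 - x) ^ 2 := by positivity
  have c1 : (x - 6) ^ 6 * (8 - x) ^ 3 ≤ (v - 6) ^ 6 * (8 - u) ^ 3 :=
    mul_le_mul a1 a2 b2 (b1.trans a1)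
  have c2 : (x - 6) ^ 6 * (8 - x) ^ 3 * (9 - x) ^ 2 ≤ (v - 6) ^ 6 * (8 - u) ^ 3 * (9 - u) ^ 2 :=
    mul_le_mul c1 a3 b3 ((mul_nonneg b1 b2).trans c1)
  linarith

theorem piece2 {u v x : ℝ} (hu : 8 ≤ u) (hv : v ≤ 9) (h1 : u ≤ x) (h2 : x ≤ v)
    (h : 3200 * ((v - 6) ^ 6 * (v - 8) ^ 3 * (9 - u) ^ 2) ≤ u ^ 5) :
    3200 * ((x - 6) ^ 6 * (x - 8) ^ 3 * (9 - x) ^ 2) ≤ x ^ 5 := by
  have a1 : (x - 6) ^ 6 ≤ (v - 6) ^ 6 := pow_le_pow_left₀ (by linarith) (by linarith) 6
  have a2 : (x - 8) ^ 3 ≤ (v - 8) ^ 3 := pow_le_pow_left₀ (by linarith) (by linarith) 3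
  have a3 : (9 - x) ^ 2 ≤ (9 - u) ^ 2 := pow_le_pow_left₀ (by linarith) (by linarith) 2
  have a4 : u ^ 5 ≤ x ^ 5 := pow_le_pow_left₀ (by linarith) (by linarith) 5
  have b1 : 0 ≤ (x - 6) ^ 6 := by positivity
  have b2 : 0 ≤ (x - 8) ^ 3 := pow_nonneg (by linarith) 3
  have b3 : 0 ≤ (9 - x) ^ 2 := by positivity
  have c1 : (x - 6) ^ 6 * (x - 8) ^ 3 ≤ (v - 6) ^ 6 * (v - 8) ^ 3 :=
    mul_le_mul a1 a2 b2 (b1.trans a1)
  have c2 : (x - 6) ^ 6 * (x - 8) ^ 3 * (9 - x) ^ 2 ≤ (v - 6) ^ 6 * (v - 8) ^ 3 * (9 - u) ^ 2 :=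
    mul_le_mul c1 a3 b3 ((mul_nonneg b1 b2).trans c1)
  linarith

theorem sup1 {x : ℝ} (h1 : 6 ≤ x) (h2 : x ≤ 8) :
    3200 * ((x - 6) ^ 6 * (8 - x) ^ 3 * (9 - x) ^ 2) ≤ x ^ 5 := by
  rcases le_total x (821/125) with h | h1
  · exact piece1 (u := 6) (v := 821/125) (by norm_num) (by norm_num) h1 h (by norm_num)
  rcases le_total x (847/125) with h | h1
  · exact piece1 (u := 821/125) (v := 847/125) (by norm_num) (by norm_num) h1 h (by norm_num)
  rcases le_total x (861/125) with h | h1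
  · exact piece1 (u := 847/125) (v := 861/125) (by norm_num) (by norm_num) h1 h (by norm_num)
  rcases le_total x (6961/1000) with h | h1
  · exact piece1 (u := 861/125) (v := 6961/1000) (by norm_num) (by norm_num) h1 h (by norm_num)
  rcases le_total x (1403/200) with h | h1
  · exact piece1 (u := 6961/1000) (v := 1403/200) (by norm_num) (by norm_num) h1 h (by norm_num)
  rcases le_total x (3529/500) with h | h1
  · exact piece1 (u := 1403/200) (v := 3529/500) (by norm_num) (by norm_num) h1 h (by norm_num)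
  rcases le_total x (887/125) with h | h1
  · exact piece1 (u := 3529/500) (v := 887/125) (by norm_num) (by norm_num) h1 h (by norm_num)
  rcases le_total x (7131/1000) with h | h1
  · exact piece1 (u := 887/125) (v := 7131/1000) (by norm_num) (by norm_num) h1 h (by norm_num)
  rcases le_total x (3583/500) with h | h1
  · exact piece1 (u := 7131/1000) (v := 3583/500) (by norm_num) (by norm_num) h1 h (by norm_num)
  rcases le_total x (3601/500) with h | h1
  · exact piece1 (u := 3583/500) (v := 3601/500) (by norm_num) (by norm_num) h1 h (by norm_num)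
  rcases le_total x (3621/500) with h | h1
  · exact piece1 (u := 3601/500) (v := 3621/500) (by norm_num) (by norm_num) h1 h (by norm_num)
  rcases le_total x (729/100) with h | h1
  · exact piece1 (u := 3621/500) (v := 729/100) (by norm_num) (by norm_num) h1 h (by norm_num)
  rcases le_total x (7353/1000) with h | h1
  · exact piece1 (u := 729/100) (v := 7353/1000) (by norm_num) (by norm_num) h1 h (by norm_num)
  rcases le_total x (3723/500) with h | h1
  · exact piece1 (u := 7353/1000) (v := 3723/500) (by norm_num) (by norm_num) h1 h (by norm_num)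
  rcases le_total x (761/100) with h | h1
  · exact piece1 (u := 3723/500) (v := 761/100) (by norm_num) (by norm_num) h1 h (by norm_num)
  exact piece1 (u := 761/100) (v := 8) (by norm_num) (by norm_num) h1 h2 (by norm_num)

theorem sup2 {x : ℝ} (h1 : 8 ≤ x) (h2 : x ≤ 9) :
    3200 * ((x - 6) ^ 6 * (x - 8) ^ 3 * (9 - x) ^ 2) ≤ x ^ 5 := by
  rcases le_total x (4191/500) with h | h1
  · exact piece2 (u := 8) (v := 4191/500) (by norm_num) (by norm_num) h1 h (by norm_num)
  rcases le_total x (1064/125) with h | h1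
  · exact piece2 (u := 4191/500) (v := 1064/125) (by norm_num) (by norm_num) h1 h (by norm_num)
  rcases le_total x (4291/500) with h | h1
  · exact piece2 (u := 1064/125) (v := 4291/500) (by norm_num) (by norm_num) h1 h (by norm_num)
  rcases le_total x (863/100) with h | h1
  · exact piece2 (u := 4291/500) (v := 863/100) (by norm_num) (by norm_num) h1 h (by norm_num)
  rcases le_total x (867/100) with h | h1
  · exact piece2 (u := 863/100) (v := 867/100) (by norm_num) (by norm_num) h1 h (by norm_num)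
  rcases le_total x (2177/250) with h | h1
  · exact piece2 (u := 867/100) (v := 2177/250) (by norm_num) (by norm_num) h1 h (by norm_num)
  rcases le_total x (35/4) with h | h1
  · exact piece2 (u := 2177/250) (v := 35/4) (by norm_num) (by norm_num) h1 h (by norm_num)
  rcases le_total x (4403/500) with h | h1
  · exact piece2 (u := 35/4) (v := 4403/500) (by norm_num) (by norm_num) h1 h (by norm_num)
  rcases le_total x (4451/500) with h | h1
  · exact piece2 (u := 4403/500) (v := 4451/500) (by norm_num) (by norm_num) h1 h (by norm_num)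
  exact piece2 (u := 4451/500) (v := 9) (by norm_num) (by norm_num) h1 h2 (by norm_num)

/-- the integrand -/
noncomputable def fI (a b c n : ℕ) (x : ℝ) : ℝ :=
  ((FF a b c).map (Int.castRingHom ℝ)).eval x / x ^ (n + 1)

theorem fI_eq (a b c n : ℕ) (x : ℝ) :
    fI a b c n x = (x - 6) ^ a * (x - 8) ^ b * (x - 9) ^ c / x ^ (n + 1) := by
  unfold fI; rw [FF_eval]

theorem fI_abs (m e1 e2 : ℕ) (he1 : e1 ≤ 1) (he2 : e2 ≤ 1) {x : ℝ} (h6 : 6 ≤ x) (h9 : x ≤ 9) :
    |fI (6 * m + e1) (3 * m + e2) (2 * m) (5 * m) x| ≤ (1 / 3200) ^ m := by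
  have hx : 0 < x := by linarith
  have hbase : |x - 6| ^ 6 * |x - 8| ^ 3 * |x - 9| ^ 2 ≤ 1 / 3200 * x ^ 5 := by
    rw [abs_of_nonneg (show 0 ≤ x - 6 by linarith), abs_of_nonpos (show x - 9 ≤ 0 by linarith)]
    rcases le_total x 8 with h | h
    · rw [abs_of_nonpos (show x - 8 ≤ 0 by linarith)]
      have := sup1 h6 h
      rw [neg_sub, neg_sub]
      linarith
    · rw [abs_of_nonneg (show 0 ≤ x - 8 by linarith)]
      have := sup2 h h9
      rw [neg_sub]
      linarith
  rw [fI_eq, abs_div, abs_mul, abs_mul, abs_pow, abs_pow, abs_pow, abs_of_pos (by positivity : 0 < x ^ (5 * m + 1)),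
    div_le_iff₀ (by positivity)]
  have h1 : (|x - 6| ^ 6 * |x - 8| ^ 3 * |x - 9| ^ 2) ^ m ≤ (1 / 3200 * x ^ 5) ^ m :=
    pow_le_pow_left₀ (by positivity) hbase m
  have h2 : |x - 6| ^ e1 ≤ 3 := by
    have h3 : |x - 6| ≤ 3 := by rw [abs_le]; constructor <;> linarith
    interval_cases e1
    · norm_num
    · simpa using h3
  have h3 : |x - 8| ^ e2 ≤ 2 := by
    have h3 : |x - 8| ≤ 2 := by rw [abs_le]; constructor <;> linarith
    interval_cases e2
    · norm_num
    · simpa using h3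
  have h4 : |x - 6| ^ e1 * |x - 8| ^ e2 ≤ x := by
    have : |x - 6| ^ e1 * |x - 8| ^ e2 ≤ 3 * 2 := mul_le_mul h2 h3 (by positivity) (by norm_num)
    linarith
  calc |x - 6| ^ (6 * m + e1) * |x - 8| ^ (3 * m + e2) * |x - 9| ^ (2 * m)
      = (|x - 6| ^ 6 * |x - 8| ^ 3 * |x - 9| ^ 2) ^ m * (|x - 6| ^ e1 * |x - 8| ^ e2) := by
        rw [pow_add, pow_add, pow_mul, pow_mul, pow_mul, mul_pow, mul_pow]; ring
    _ ≤ (1 / 3200 * x ^ 5) ^ m * x := mul_le_mul h1 h4 (by positivity) (by positivity)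
    _ = (1 / 3200) ^ m * x ^ (5 * m + 1) := by
        rw [mul_pow, ← pow_mul, pow_succ]; ring

theorem fI_cont (a b c n : ℕ) {s t : ℝ} (hs : 0 < s) (ht : 0 < t) :
    ContinuousOn (fI a b c n) (Set.uIcc s t) := by
  have : fI a b c n = fun x => (x - 6) ^ a * (x - 8) ^ b * (x - 9) ^ c / x ^ (n + 1) := by
    funext x; exact fI_eq a b c n x
  rw [this]
  intro x hx
  have hx0 : 0 < x := by
    rcases Set.mem_uIcc.1 hx with h | h
    · linarith [h.1]
    · linarith [h.1]
  apply ContinuousAt.continuousWithinAt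
  apply ContinuousAt.div
  · fun_prop
  · fun_prop
  · positivity

theorem J_abs (m e1 e2 : ℕ) (he1 : e1 ≤ 1) (he2 : e2 ≤ 1) {s t : ℝ} (hs : 6 ≤ s) (hst : s ≤ t)
    (ht : t ≤ 9) :
    |∫ x in s..t, fI (6 * m + e1) (3 * m + e2) (2 * m) (5 * m) x| ≤ (1 / 3200) ^ m * (t - s) := by
  have := intervalIntegral.norm_integral_le_of_norm_le_const (a := s) (b := t)
    (f := fI (6 * m + e1) (3 * m + e2) (2 * m) (5 * m)) (C := (1 / 3200) ^ m) (by
      intro x hx
      rw [Set.uIoc_of_le hst] at hx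
      rw [Real.norm_eq_abs]
      exact fI_abs m e1 e2 he1 he2 (by linarith [hx.1]) (by linarith [hx.2]))
  rw [Real.norm_eq_abs, abs_of_nonneg (show 0 ≤ t - s by linarith)] at this
  exact this

/-- sign of the integral over `[8, 9]` -/
theorem J1_sign (a b c n : ℕ) : 0 < (-1) ^ c * ∫ x in (8:ℝ)..9, fI a b c n x := by
  rw [← intervalIntegral.integral_const_mul]
  apply intervalIntegral.intervalIntegral_pos_of_pos_on
  · apply ContinuousOn.intervalIntegrable
    exact (fI_cont a b c n (by norm_num) (by norm_num)).const_smul ((-1 : ℝ) ^ c)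
  · intro x hx
    rw [fI_eq]
    have h1 : 0 < x - 6 := by linarith [hx.1]
    have h2 : 0 < x - 8 := by linarith [hx.1]
    have h3 : 0 < 9 - x := by linarith [hx.2]
    have h4 : 0 < x := by linarith [hx.1]
    have e : (-1) ^ c * ((x - 6) ^ a * (x - 8) ^ b * (x - 9) ^ c / x ^ (n + 1)) =
        (x - 6) ^ a * (x - 8) ^ b * (9 - x) ^ c / x ^ (n + 1) := by
      rw [show (9 - x) = (-1) * (x - 9) by ring, mul_pow]; ring
    rw [e]
    positivity
  · norm_num

/-- sign of the integral over `[6, 8]` -/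
theorem J2_sign (a b c n : ℕ) : 0 < (-1) ^ (b + c) * ∫ x in (6:ℝ)..8, fI a b c n x := by
  rw [← intervalIntegral.integral_const_mul]
  apply intervalIntegral.intervalIntegral_pos_of_pos_on
  · apply ContinuousOn.intervalIntegrable
    exact (fI_cont a b c n (by norm_num) (by norm_num)).const_smul ((-1 : ℝ) ^ (b + c))
  · intro x hx
    rw [fI_eq]
    have h1 : 0 < x - 6 := by linarith [hx.1]
    have h2 : 0 < 8 - x := by linarith [hx.2]
    have h3 : 0 < 9 - x := by linarith [hx.2]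
    have h4 : 0 < x := by linarith [hx.1]
    have e : (-1) ^ (b + c) * ((x - 6) ^ a * (x - 8) ^ b * (x - 9) ^ c / x ^ (n + 1)) =
        (x - 6) ^ a * (8 - x) ^ b * (9 - x) ^ c / x ^ (n + 1) := by
      rw [show (9 - x) = (-1) * (x - 9) by ring, show (8 - x) = (-1) * (x - 8) by ring, mul_pow,
        mul_pow, pow_add]; ring
    rw [e]
    positivity
  · norm_num

end Pool.Agent.H15.Lin
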