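import Mathlib

set_option autoImplicit false

/-!
The explicit bound `lcm (1, ..., n) ≤ (7/2)^n`.
-/

namespace Pool.Agent.H15.Lin.Lcm

open Nat Finset

theorem term (k q : ℕ) (hq : 0 < q) (h6 : q ≤ 6 * k) :
    1 + 3 * k / q + 2 * k / q + k / q ≤ (if q ≤ k then 1 else 0) + 6 * k / q := by
  split_ifs with h
  · have h1 := Nat.div_mul_le_self (3 * k) q
    have h2 := Nat.div_mul_le_self (2 * k) q
    have h3 := Nat.div_mul_le_self k q
    have : 3 * k / q + 2 * k / q + k / q ≤ 6 * k / q := by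
      rw [Nat.le_div_iff_mul_le hq]
      nlinarith
    omega
  · push Not at h
    rw [Nat.div_eq_of_lt h, add_zero, zero_add, Nat.le_div_iff_mul_le hq]
    have h1 := Nat.div_mul_le_self (3 * k) q
    have h2 := Nat.div_mul_le_self (2 * k) q
    have h1' := Nat.lt_div_mul_add (a := 3 * k) hq
    have h2' := Nat.lt_div_mul_add (a := 2 * k) hq
    have hA : 3 * k / q ≤ 2 := by
      have : 3 * k / q < 3 := by rw [Nat.div_lt_iff_lt_mul hq]; omega
      omega
    have hB : 2 * k / q ≤ 1 := by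
      have : 2 * k / q < 2 := by rw [Nat.div_lt_iff_lt_mul hq]; omega
      omega
    generalize 3 * k / q = A at *
    generalize 2 * k / q = B at *
    interval_cases A <;> interval_cases B <;> omega

theorem dvd6 (k : ℕ) (hk : 0 < k) :
    lcmUpto (6 * k) * ((3 * k)! * (2 * k)! * k !) ∣ lcmUpto k * (6 * k)! := by
  have hn1 : lcmUpto (6 * k) ≠ 0 := lcmUpto_ne_zero _
  have hn2 : lcmUpto k ≠ 0 := lcmUpto_ne_zero _
  have f1 := factorial_ne_zero (3 * k)
  have f2 := factorial_ne_zero (2 * k)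
  have f3 := factorial_ne_zero k
  have f6 := factorial_ne_zero (6 * k)
  rw [← factorization_prime_le_iff_dvd (by positivity) (by positivity)]
  intro p hp
  rw [Nat.factorization_mul hn1 (mul_ne_zero (mul_ne_zero f1 f2) f3),
    Nat.factorization_mul (mul_ne_zero f1 f2) f3,
    Nat.factorization_mul f1 f2, Nat.factorization_mul hn2 f6]
  simp only [Finsupp.coe_add, Pi.add_apply]
  rw [factorization_lcmUpto _ hp, factorization_lcmUpto _ hp]
  set b := log p (6 * k) + 1 with hb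
  have hlog : ∀ n, n ≤ 6 * k → log p n < b := by
    intro n hn
    have : log p n ≤ log p (6 * k) := log_mono_right hn
    omega
  rw [factorization_factorial hp (hlog (3 * k) (by omega)),
    factorization_factorial hp (hlog (2 * k) (by omega)),
    factorization_factorial hp (hlog k (by omega)),
    factorization_factorial hp (hlog (6 * k) (by omega))]
  have e1 : log p (6 * k) = ∑ i ∈ Ico 1 b, 1 := by simp [hb]
  have e2 : log p k = ∑ i ∈ Ico 1 b, if p ^ i ≤ k then 1 else 0 := by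
    rw [← card_filter]
    have : (Ico 1 b).filter (fun i => p ^ i ≤ k) = Ico 1 (log p k + 1) := by
      ext i
      rw [mem_filter, mem_Ico, mem_Ico]
      constructor
      · rintro ⟨⟨h1, h2⟩, h3⟩
        have := (Nat.le_log_iff_pow_le hp.one_lt hk.ne').2 h3
        omega
      · rintro ⟨h1, h2⟩
        have h3 := (Nat.le_log_iff_pow_le hp.one_lt hk.ne').1 (show i ≤ log p k by omega)
        have := hlog k (by omega)
        exact ⟨⟨h1, by omega⟩, h3⟩
    rw [this]; simp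
  rw [e1, e2]
  rw [← sum_add_distrib, ← sum_add_distrib, ← sum_add_distrib, ← sum_add_distrib]
  apply sum_le_sum
  intro i hi
  rw [mem_Ico] at hi
  have hq : 0 < p ^ i := Nat.pow_pos hp.pos
  have h6 : p ^ i ≤ 6 * k := (Nat.le_log_iff_pow_le hp.one_lt (by omega)).1 (show i ≤ log p (6 * k) by omega)
  have := term k (p ^ i) hq h6
  omega

theorem multi (k : ℕ) : (6 * k)! ≤ 432 ^ k * ((3 * k)! * (2 * k)! * k !) := by
  induction k with
  | zero => simp
  | succ k ih =>
    have e6 : (6 * (k + 1))! = (6 * k + 6) * ((6 * k + 5) * ((6 * k + 4) * ((6 * k + 3) *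
        ((6 * k + 2) * ((6 * k + 1) * (6 * k)!))))) := by
      rw [show 6 * (k + 1) = 6 * k + 5 + 1 by ring]
      simp only [factorial_succ]
    have e3 : (3 * (k + 1))! = (3 * k + 3) * ((3 * k + 2) * ((3 * k + 1) * (3 * k)!)) := by
      rw [show 3 * (k + 1) = 3 * k + 2 + 1 by ring]
      simp only [factorial_succ]
    have e2 : (2 * (k + 1))! = (2 * k + 2) * ((2 * k + 1) * (2 * k)!) := by
      rw [show 2 * (k + 1) = 2 * k + 1 + 1 by ring]
      simp only [factorial_succ]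
    rw [e6, e3, e2, factorial_succ k, pow_succ]
    have h1 : (6 * k + 1) * (6 * k + 5) ≤ 36 * (k + 1) ^ 2 := by nlinarith
    calc (6 * k + 6) * ((6 * k + 5) * ((6 * k + 4) * ((6 * k + 3) * ((6 * k + 2) * ((6 * k + 1) * (6 * k)!)))))
        = (72 * (k + 1) * (3 * k + 1) * (3 * k + 2) * (2 * k + 1)) * ((6 * k + 1) * (6 * k + 5)) * (6 * k)! := by
          ring
      _ ≤ (72 * (k + 1) * (3 * k + 1) * (3 * k + 2) * (2 * k + 1)) * (36 * (k + 1) ^ 2) *
          (432 ^ k * ((3 * k)! * (2 * k)! * k !)) := by gcongr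
      _ = _ := by ring

theorem step (k : ℕ) (hk : 0 < k) : lcmUpto (6 * k) ≤ 432 ^ k * lcmUpto k := by
  have h1 := Nat.le_of_dvd (by have := lcmUpto_pos k; positivity) (dvd6 k hk)
  have h2 := multi k
  have hP : 0 < (3 * k)! * (2 * k)! * k ! := by positivity
  have h3 : lcmUpto (6 * k) * ((3 * k)! * (2 * k)! * k !) ≤
      432 ^ k * lcmUpto k * ((3 * k)! * (2 * k)! * k !) := by
    refine h1.trans ((Nat.mul_le_mul_left _ h2).trans (le_of_eq ?_))
    ring
  exact Nat.le_of_mul_le_mul_right h3 hP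

theorem lcmUpto_succ (n : ℕ) : lcmUpto (n + 1) = Nat.lcm (n + 1) (lcmUpto n) := by
  unfold lcmUpto
  rw [← Finset.insert_Icc_right_eq_Icc_add_one (by omega : 1 ≤ n + 1), Finset.lcm_insert]
  rfl

/-- fast computation -/
def L : ℕ → ℕ
  | 0 => 1
  | n + 1 => Nat.lcm (n + 1) (L n)

theorem L_eq (n : ℕ) : L n = lcmUpto n := by
  induction n with
  | zero => simp [L, lcmUpto]
  | succ n ih => rw [L, ih, lcmUpto_succ]

theorem small : ∀ n < 240, 2 ^ n * L n ≤ 7 ^ n := by decide +kernel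

theorem lcm_le_nat (n : ℕ) : 2 ^ n * lcmUpto n ≤ 7 ^ n := by
  induction n using Nat.strong_induction_on with
  | _ n ih =>
    rcases lt_or_ge n 240 with h | h
    · rw [← L_eq]; exact small n h
    · obtain ⟨k, hk1, hk2⟩ : ∃ k, 6 * k ≤ n ∧ n < 6 * (k + 1) := ⟨n / 6, by omega, by omega⟩
      have hk : 38 ≤ k := by omega
      have h1 : lcmUpto n ≤ lcmUpto (6 * (k + 1)) := by
        apply Nat.le_of_dvd (lcmUpto_pos _)
        unfold lcmUpto
        exact Finset.lcm_mono (Finset.Icc_subset_Icc_right (by omega))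
      have h2 := step (k + 1) (by omega)
      have h3 := ih (k + 1) (by omega)
      -- 2^(k+1) lcm n ≤ 432^(k+1) 7^(k+1)
      have h4 : 2 ^ (k + 1) * lcmUpto n ≤ 3024 ^ (k + 1) := by
        calc 2 ^ (k + 1) * lcmUpto n ≤ 2 ^ (k + 1) * (432 ^ (k + 1) * lcmUpto (k + 1)) := by
              gcongr; exact h1.trans h2
          _ = 432 ^ (k + 1) * (2 ^ (k + 1) * lcmUpto (k + 1)) := by ring
          _ ≤ 432 ^ (k + 1) * 7 ^ (k + 1) := by gcongr
          _ = 3024 ^ (k + 1) := by rw [← mul_pow]; norm_num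
      -- 3024^(k+1) 2^(6k) ≤ 2^(k+1) 7^(6k)
      have h5 : 3024 ^ (k + 1) * 64 ^ k ≤ 2 ^ (k + 1) * 117649 ^ k := by
        obtain ⟨j, rfl⟩ : ∃ j, k = 38 + j := ⟨k - 38, by omega⟩
        have b1 : 3024 ^ (38 + 1) * 64 ^ 38 ≤ 2 ^ (38 + 1) * 117649 ^ 38 := by norm_num
        have b2 : (3024 * 64) ^ j ≤ (2 * 117649) ^ j := Nat.pow_le_pow_left (by norm_num) j
        calc 3024 ^ (38 + j + 1) * 64 ^ (38 + j) = (3024 ^ (38 + 1) * 64 ^ 38) * (3024 * 64) ^ j := by
              rw [mul_pow]; ring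
          _ ≤ (2 ^ (38 + 1) * 117649 ^ 38) * (2 * 117649) ^ j := Nat.mul_le_mul b1 b2
          _ = _ := by rw [mul_pow]; ring
      obtain ⟨e, he⟩ : ∃ e, n = 6 * k + e := ⟨n - 6 * k, by omega⟩
      have h6 : 2 ^ (k + 1) * (2 ^ (6 * k) * lcmUpto n) ≤ 2 ^ (k + 1) * 7 ^ (6 * k) := by
        calc 2 ^ (k + 1) * (2 ^ (6 * k) * lcmUpto n) = (2 ^ (k + 1) * lcmUpto n) * 64 ^ k := by
              rw [pow_mul]; norm_num; ring
          _ ≤ 3024 ^ (k + 1) * 64 ^ k := by gcongr
          _ ≤ 2 ^ (k + 1) * 117649 ^ k := h5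
          _ = 2 ^ (k + 1) * 7 ^ (6 * k) := by rw [pow_mul]; norm_num
      have h7 : 2 ^ (6 * k) * lcmUpto n ≤ 7 ^ (6 * k) := Nat.le_of_mul_le_mul_left h6 (by positivity)
      have h8 : 2 ^ e ≤ 7 ^ e := Nat.pow_le_pow_left (by norm_num) e
      calc 2 ^ n * lcmUpto n = 2 ^ e * (2 ^ (6 * k) * lcmUpto n) := by rw [he, pow_add]; ring
        _ ≤ 7 ^ e * 7 ^ (6 * k) := Nat.mul_le_mul h8 h7
        _ = 7 ^ n := by rw [he, pow_add]; ring

theorem lcm_le (n : ℕ) : (lcmUpto n : ℝ) ≤ (7 / 2) ^ n := by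
  have h := lcm_le_nat n
  have h' : (2 : ℝ) ^ n * (lcmUpto n : ℝ) ≤ 7 ^ n := by exact_mod_cast h
  rw [div_pow, le_div_iff₀ (by positivity)]
  linarith

end Pool.Agent.H15.Lin.Lcm
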