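import Mathlib
import Pool.Agent.H15.Lin.Key
import Pool.Agent.H15.Lin.Lcm

set_option autoImplicit false

/-!
Explicit lower bounds for `|p log 2 - o log 3|`.
-/

namespace Pool.Agent.H15.Lin.Form

open Pool.Agent.H15.Lin

theorem e98 : Real.log (9 / 8) = 2 * Real.log 3 - 3 * Real.log 2 := by
  rw [show (9 : ℝ) / 8 = 3 ^ 2 / 2 ^ 3 by norm_num, Real.log_div (by norm_num) (by norm_num),
    Real.log_pow, Real.log_pow]; push_cast; ring

theorem e86 : Real.log (8 / 6) = 2 * Real.log 2 - Real.log 3 := by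
  rw [show (8 : ℝ) / 6 = 2 ^ 2 / 3 by norm_num, Real.log_div (by norm_num) (by norm_num),
    Real.log_pow]; push_cast; ring

/-- explicit lower bound from the `r`-th approximation -/
theorem lower (r : ℕ) (p o : ℤ) (h1 : p < 2 * o) (h2 : 3 * o < 2 * p)
    (hH : 49 * ((p : ℝ) - o) ≤ (204800 / 117649) ^ r) :
    1 ≤ 2 ^ 13 * 2 ^ (39 * r) * |(p : ℝ) * Real.log 2 - o * Real.log 3| := by
  have hk := key r (2 * o - p) (3 * o - 2 * p) (by omega) (by omega)
  have e : ((2 * o - p : ℤ) : ℝ) * Real.log (9 / 8) + ((3 * o - 2 * p : ℤ) : ℝ) * Real.log (8 / 6) =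
      -((p : ℝ) * Real.log 2 - o * Real.log 3) := by
    rw [e98, e86]; push_cast; ring
  rw [e, abs_neg] at hk
  set Λ := |(p : ℝ) * Real.log 2 - o * Real.log 3| with hΛ
  have hΛ0 : 0 ≤ Λ := abs_nonneg _
  have hpo : (0 : ℝ) < (p : ℝ) - o := by
    have : (0 : ℤ) < p - o := by omega
    exact_mod_cast this
  have e2 : ((2 * o - p : ℤ) : ℝ) - ((3 * o - 2 * p : ℤ) : ℝ) = (p : ℝ) - o := by push_cast; ring
  rw [e2] at hk
  have hl := Pool.Agent.H15.Lin.Lcm.lcm_le (6 * r + 2)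
  have hk2 := hk.trans (mul_le_mul_of_nonneg_right hl (by positivity))
  have e3 : ((7 : ℝ) / 2) ^ (6 * r + 2) = 49 / 4 * (117649 / 64) ^ r := by
    rw [pow_add, pow_mul]; norm_num; ring
  have e4 : (12 : ℝ) ^ (6 * r + 1) * 14 ^ (3 * r + 1) * 15 ^ (2 * r) / 6 ^ (5 * r) = 168 * 237081600 ^ r := by
    have : (237081600 : ℝ) = 12 ^ 6 * 14 ^ 3 * 15 ^ 2 / 6 ^ 5 := by norm_num
    rw [this, div_pow, mul_pow, mul_pow, ← pow_mul, ← pow_mul, ← pow_mul, ← pow_mul, pow_succ,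
      pow_succ]
    ring
  rw [e3, e4] at hk2
  have t1 : 49 / 4 * (117649 / 64 : ℝ) ^ r * (2 * ((p : ℝ) - o) * (1 / 3200) ^ r) ≤ 1 / 2 := by
    have hr : (117649 / 64 : ℝ) ^ r * (1 / 3200) ^ r * (204800 / 117649) ^ r = 1 := by
      rw [← mul_pow, ← mul_pow]; norm_num
    have hpos : (0 : ℝ) < (117649 / 64 : ℝ) ^ r * (1 / 3200) ^ r := by positivity
    calc 49 / 4 * (117649 / 64 : ℝ) ^ r * (2 * ((p : ℝ) - o) * (1 / 3200) ^ r)
        = 1 / 2 * ((117649 / 64 : ℝ) ^ r * (1 / 3200) ^ r * (49 * ((p : ℝ) - o))) := by ring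
      _ ≤ 1 / 2 * ((117649 / 64 : ℝ) ^ r * (1 / 3200) ^ r * (204800 / 117649) ^ r) := by gcongr
      _ = 1 / 2 := by rw [hr]; norm_num
  have t2 : 49 / 4 * (117649 / 64 : ℝ) ^ r * (168 * 237081600 ^ r * Λ) ≤ 2058 * 2 ^ (39 * r) * Λ := by
    have h3 : (117649 / 64 : ℝ) ^ r * 237081600 ^ r ≤ 2 ^ (39 * r) := by
      rw [← mul_pow, pow_mul]
      apply pow_le_pow_left₀ (by positivity)
      norm_num
    calc 49 / 4 * (117649 / 64 : ℝ) ^ r * (168 * 237081600 ^ r * Λ)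
        = 2058 * ((117649 / 64 : ℝ) ^ r * 237081600 ^ r) * Λ := by ring
      _ ≤ 2058 * 2 ^ (39 * r) * Λ := by gcongr
  rw [mul_add] at hk2
  have h4 : (1 : ℝ) / 2 ≤ 2058 * 2 ^ (39 * r) * Λ := by linarith
  have h5 : (0 : ℝ) ≤ 2 ^ (39 * r) * Λ := by positivity
  nlinarith

/-- best approximation from one side, by two consecutive convergents -/
theorem cf {q1 r1 q2 r2 : ℤ} (hdet : q1 * r2 - q2 * r1 = 1) (hq1 : 0 < q1) (hq2 : 0 < q2)
    (hA : 0 < (q1 : ℝ) * Real.log 2 - r1 * Real.log 3)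
    (hB : 0 < (r2 : ℝ) * Real.log 3 - q2 * Real.log 2) (p o : ℤ) (hp : 0 < p) (hp2 : p < q2) :
    (q1 : ℝ) * Real.log 2 - r1 * Real.log 3 ≤ |(p : ℝ) * Real.log 2 - o * Real.log 3| := by
  obtain ⟨s, hs⟩ : ∃ s, s = p * r2 - o * q2 := ⟨_, rfl⟩
  obtain ⟨t, ht⟩ : ∃ t, t = q1 * o - r1 * p := ⟨_, rfl⟩
  have e1 : p = q1 * s + q2 * t := by
    rw [hs, ht]; linear_combination (-p) * hdet
  have e2 : o = r1 * s + r2 * t := by
    rw [hs, ht]; linear_combination (-o) * hdet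
  set A := (q1 : ℝ) * Real.log 2 - r1 * Real.log 3 with hAd
  set B := (r2 : ℝ) * Real.log 3 - q2 * Real.log 2 with hBd
  have e : (p : ℝ) * Real.log 2 - o * Real.log 3 = s * A - t * B := by
    rw [e1, e2, hAd, hBd]; push_cast; ring
  rw [e]
  rcases lt_trichotomy t 0 with h | h | h
  · have hs1 : 1 ≤ s := by
      by_contra hcon
      push Not at hcon
      have : s ≤ 0 := by omega
      nlinarith
    have hs' : (1 : ℝ) ≤ s := by exact_mod_cast hs1
    have ht' : (t : ℝ) ≤ -1 := by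
      have : t ≤ -1 := by omega
      exact_mod_cast this
    rw [le_abs]; left
    nlinarith
  · have hs1 : 1 ≤ s := by
      by_contra hcon
      push Not at hcon
      have : s ≤ 0 := by omega
      rw [h] at e1
      nlinarith
    have hs' : (1 : ℝ) ≤ s := by exact_mod_cast hs1
    rw [h]
    rw [le_abs]; left
    push_cast
    nlinarith
  · have hs1 : s ≤ -1 := by
      by_contra hcon
      push Not at hcon
      have : 0 ≤ s := by omega
      nlinarith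
    have hs' : (s : ℝ) ≤ -1 := by exact_mod_cast hs1
    have ht' : (1 : ℝ) ≤ t := by
      have : 1 ≤ t := by omega
      exact_mod_cast this
    rw [le_abs]; right
    nlinarith

theorem log_ratio {a b : ℕ} {ε : ℝ} (h : (3 : ℝ) ^ b ≤ 2 ^ a * (1 - ε)) :
    ε ≤ (a : ℝ) * Real.log 2 - b * Real.log 3 := by
  have e : (a : ℝ) * Real.log 2 - b * Real.log 3 = - Real.log (3 ^ b / 2 ^ a) := by
    rw [Real.log_div (by positivity) (by positivity), Real.log_pow, Real.log_pow]; ring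
  rw [e]
  have h1 : Real.log (3 ^ b / 2 ^ a) ≤ 3 ^ b / 2 ^ a - 1 := Real.log_le_sub_one_of_pos (by positivity)
  have h2 : (3 : ℝ) ^ b / 2 ^ a ≤ 1 - ε := by
    rw [div_le_iff₀ (by positivity)]; linarith
  linarith

theorem log_pos_ratio {a b : ℕ} (h : 2 ^ a < 3 ^ b) : 0 < (b : ℝ) * Real.log 3 - a * Real.log 2 := by
  have h' : (2 : ℝ) ^ a < 3 ^ b := by exact_mod_cast h
  have := Real.log_lt_log (by positivity) h'
  rw [Real.log_pow, Real.log_pow] at this
  linarith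

theorem nat1 : 3 ^ 306 * 100000 ≤ 2 ^ 485 * 99898 := by decide +kernel
theorem nat2 : 2 ^ 1054 < 3 ^ 665 := by decide +kernel
theorem nat3 : 3 ^ 15601 * 1000000 ≤ 2 ^ 24727 * 999982 := by decide +kernel
theorem nat4 : 2 ^ 50508 < 3 ^ 31867 := by decide +kernel

theorem cf1 (p o : ℤ) (hp : 0 < p) (hp2 : p < 1054) :
    (0.00102 : ℝ) ≤ |(p : ℝ) * Real.log 2 - o * Real.log 3| := by
  have h1 : (0.00102 : ℝ) ≤ ((485 : ℕ) : ℝ) * Real.log 2 - ((306 : ℕ) : ℝ) * Real.log 3 := by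
    apply log_ratio
    have h : ((3 ^ 306 * 100000 : ℕ) : ℝ) ≤ ((2 ^ 485 * 99898 : ℕ) : ℝ) := by exact_mod_cast nat1
    rw [Nat.cast_mul, Nat.cast_mul, Nat.cast_pow, Nat.cast_pow] at h
    have : (1 : ℝ) - 0.00102 = 99898 / 100000 := by norm_num
    rw [this, ← mul_div_assoc, le_div_iff₀ (by norm_num)]
    exact_mod_cast h
  have h2 := log_pos_ratio nat2
  refine h1.trans ?_
  have := cf (q1 := 485) (r1 := 306) (q2 := 1054) (r2 := 665) (by norm_num) (by norm_num)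
    (by norm_num) (by push_cast at h1 ⊢; linarith) (by push_cast at h2 ⊢; exact h2) p o hp hp2
  push_cast at this ⊢
  exact this

theorem cf2 (p o : ℤ) (hp : 0 < p) (hp2 : p < 50508) :
    (0.000018 : ℝ) ≤ |(p : ℝ) * Real.log 2 - o * Real.log 3| := by
  have h1 : (0.000018 : ℝ) ≤ ((24727 : ℕ) : ℝ) * Real.log 2 - ((15601 : ℕ) : ℝ) * Real.log 3 := by
    apply log_ratio
    have h : ((3 ^ 15601 * 1000000 : ℕ) : ℝ) ≤ ((2 ^ 24727 * 999982 : ℕ) : ℝ) := by
      exact Nat.cast_le.2 nat3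
    rw [Nat.cast_mul, Nat.cast_mul, Nat.cast_pow, Nat.cast_pow] at h
    have : (1 : ℝ) - 0.000018 = 999982 / 1000000 := by norm_num
    rw [this, ← mul_div_assoc, le_div_iff₀ (by norm_num)]
    exact_mod_cast h
  have h2 := log_pos_ratio nat4
  refine h1.trans ?_
  have := cf (q1 := 24727) (r1 := 15601) (q2 := 50508) (r2 := 31867) (by norm_num) (by norm_num)
    (by norm_num) (by push_cast at h1 ⊢; linarith) (by push_cast at h2 ⊢; exact h2) p o hp hp2
  push_cast at this ⊢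
  exact this

end Pool.Agent.H15.Lin.Form
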